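import Pool.Agent.H95.RQ.Targets2

/-!
# Artin reciprocity: (PIW)
-/

set_option autoImplicit false

open NumberField NumberField.InfinitePlace IsDedekindDomain

namespace Pool.Agent.H86.RQ

open Pool.Agent.H95.RQ Pool.Agent.H28.RC

theorem us_iter {F E : Type} [Field F] [NumberField F] [Field E] [NumberField E] [Algebra F E]
    (σ : E ≃ₐ[F] E) (k : ℕ) (x : Eˣ) : (us σ)^[k] x = us (σ ^ k) x := by
  induction k with
  | zero =>
    ext
    simp [us]
  | succ k ih =>
    rw [Function.iterate_succ_apply', ih]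
    ext
    simp only [us, Units.coe_map, pow_succ']
    rfl

theorem us_one {F E : Type} [Field F] [NumberField F] [Field E] [NumberField E] [Algebra F E]
    (x : Eˣ) : us (1 : E ≃ₐ[F] E) x = x := by
  ext
  simp [us]

theorem ex_gen {E : Type} [Field E] [NumberField E] (Q : HeightOneSpectrum (𝓞 E)) :
    ∃ x : Eˣ, Q.valuation E (x : E) < 1 ∧
      ∀ Q' : HeightOneSpectrum (𝓞 E), Q' ≠ Q → Q'.valuation E (x : E) = 1 := by
  have hQ0 : Q.asIdeal ≠ ⊥ := Q.ne_bot
  set q : nonZeroDivisors (Ideal (𝓞 E)) := ⟨Q.asIdeal, mem_nonZeroDivisors_of_ne_zero hQ0⟩ with hq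
  set h := Fintype.card (ClassGroup (𝓞 E)) with hh
  have hpos : 0 < h := Fintype.card_pos
  have h1 : ClassGroup.mk0 (q ^ h) = 1 := by
    rw [map_pow]
    exact pow_card_eq_one
  rw [ClassGroup.mk0_eq_one_iff] at h1
  obtain ⟨c, hc⟩ := h1
  have hc' : Q.asIdeal ^ h = Ideal.span {c} := hc
  have hc0 : c ≠ 0 := by
    rintro rfl
    have : Q.asIdeal ^ h = ⊥ := by rw [hc']; simp
    exact hQ0 (pow_eq_zero_iff hpos.ne' |>.1 this)
  have hcE : (algebraMap (𝓞 E) E c) ≠ 0 := by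
    simpa using hc0
  refine ⟨Units.mk0 _ hcE, ?_, ?_⟩
  · rw [Units.val_mk0, HeightOneSpectrum.valuation_lt_one_iff_mem]
    have : c ∈ Q.asIdeal ^ h := by
      rw [hc']
      exact Ideal.mem_span_singleton_self c
    exact Ideal.pow_le_self hpos.ne' this
  · intro Q' hne
    rw [Units.val_mk0, HeightOneSpectrum.valuation_eq_one_iff_notMem]
    intro hmem
    apply hne
    have h2 : Q.asIdeal ^ h ≤ Q'.asIdeal := by
      rw [hc', Ideal.span_singleton_le_iff_mem]
      exact hmem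
    have h3 : Q.asIdeal ≤ Q'.asIdeal := Q'.isPrime.le_of_pow_le h2
    have h4 : Q.asIdeal = Q'.asIdeal := Q.isMaximal.eq_of_le Q'.isPrime.ne_top h3
    exact HeightOneSpectrum.ext h4.symm

theorem pf_PIW (h_EQS : T_EQS) (h_VAL : T_VAL) : T_PIW := by
  intro F E _ _ _ _ _ _ σ n hn hσ
  obtain ⟨hV1, hV2, hV3, -, -, -, -⟩ := h_VAL F E
  obtain ⟨u, hu1, hu2⟩ := h_EQS (HeightOneSpectrum (𝓞 E)) Eˣ (mp σ) (us σ) n
    (fun Q x => Q.valuation E (x : E) < 1 ∧
      ∀ Q' : HeightOneSpectrum (𝓞 E), Q' ≠ Q → Q'.valuation E (x : E) = 1)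
    hn
    (by
      have h0 := hV3 σ 0
      rw [← hV3, hσ]
      simpa using h0)
    (fun a => by rw [us_iter, hσ, us_one])
    (by
      rintro Q a ⟨ha1, ha2⟩
      refine ⟨?_, ?_⟩
      · have := hV1 σ Q (a : E)
        change (mp σ Q).valuation E (σ (a : E)) < 1
        rw [this]; exact ha1
      · intro Q' hne
        obtain ⟨Q'', rfl⟩ := (mp σ).surjective Q'
        change (mp σ Q'').valuation E (σ (a : E)) = 1
        rw [hV1]
        exact ha2 Q'' (fun h => hne (by rw [h])))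
    (by
      rintro Q a b ⟨ha1, ha2⟩ ⟨hb1, hb2⟩
      refine ⟨?_, ?_⟩
      · rw [Units.val_mul, map_mul]
        exact mul_lt_one_of_lt_of_le ha1 hb1.le
      · intro Q' hne
        rw [Units.val_mul, map_mul, ha2 Q' hne, hb2 Q' hne, one_mul])
    (fun Q => ex_gen Q)
  exact ⟨u, hu1, hu2⟩

end Pool.Agent.H86.RQ
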