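import Pool.Agent.H29.RQ.Targets

set_option autoImplicit false

namespace Pool.Agent.H86.RQ

open Pool.Agent.H29.RQ Pool.Agent.H23.RDD Pool.Agent.H24.RD NumberField Height Finset Polynomial

theorem pf_ORB : T_ORB := by
  classical
  intro G _ _ V B W hBV hWV hcomm M κ c hc0 hc1 hκ Y hY1 hY2 hY3 X hX
  have : Fintype (W ⧸ B.subgroupOf W) := Fintype.ofFinite _
  have hcard : B.relIndex W = Fintype.card (W ⧸ B.subgroupOf W) := by
    rw [Subgroup.relIndex, Subgroup.index, Nat.card_eq_fintype_card]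
  set w : (W ⧸ B.subgroupOf W) → G := fun q => ((Quotient.out q : W) : G) with hw
  have hwW : ∀ q, w q ∈ W := fun q => (Quotient.out q : W).2
  have hwV : ∀ q, w q ∈ V := fun q => hWV (hwW q)
  have hmk : ∀ q : W ⧸ B.subgroupOf W, ((Quotient.out q : W) : W ⧸ B.subgroupOf W) = q :=
    fun q => QuotientGroup.out_eq' q
  have hdiff : ∀ q q', q ≠ q' → (w q)⁻¹ * w q' ∉ B := by
    intro q q' hne hmem
    apply hne
    rw [← hmk q, ← hmk q', QuotientGroup.eq, Subgroup.mem_subgroupOf]
    simpa [hw] using hmem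
  have hone : ∀ q, q ≠ ((1 : W) : W ⧸ B.subgroupOf W) → w q ∉ B := by
    intro q hne hmem
    apply hne
    rw [← hmk q, eq_comm, QuotientGroup.eq, Subgroup.mem_subgroupOf]
    simpa [hw] using hmem
  have hconj : ∀ t ∈ V, ∀ a ∈ V, ∀ b ∈ V, (a * t)⁻¹ * (b * t) = a⁻¹ * b := by
    intro t ht a ha b hb
    rw [hcomm a ha t ht, hcomm b hb t ht]
    group
  have key : ∀ x ∈ X, ∏ y ∈ X.erase x, κ x y ≤ c ^ (Fintype.card (W ⧸ B.subgroupOf W) - 1) := by
    intro x hx
    obtain ⟨t, ht, hxt⟩ := (hX x).1 hx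
    set S : Finset (W ⧸ B.subgroupOf W) := Finset.univ.erase ((1 : W) : W ⧸ B.subgroupOf W) with hS
    have hdisj : (S : Set (W ⧸ B.subgroupOf W)).PairwiseDisjoint (fun q => Y (w q * t)) := by
      intro q _ q' _ hne
      apply hY2 _ (V.mul_mem (hwV q) ht) _ (V.mul_mem (hwV q') ht)
      rw [hconj t ht _ (hwV q) _ (hwV q')]
      exact hdiff q q' hne
    have hsub : S.biUnion (fun q => Y (w q * t)) ⊆ X.erase x := by
      intro y hy
      rw [Finset.mem_biUnion] at hy
      obtain ⟨q, hq, hyq⟩ := hy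
      rw [Finset.mem_erase]
      refine ⟨?_, (hX y).2 ⟨w q * t, V.mul_mem (hwV q) ht, hyq⟩⟩
      rintro rfl
      have hd : Disjoint (Y t) (Y (w q * t)) := by
        apply hY2 _ ht _ (V.mul_mem (hwV q) ht)
        have h1 := hconj t ht 1 V.one_mem _ (hwV q)
        rw [one_mul] at h1
        rw [h1, inv_one, one_mul]
        exact hone q (Finset.ne_of_mem_erase hq)
      exact Finset.disjoint_left.1 hd hxt hyq
    calc ∏ y ∈ X.erase x, κ x y ≤ ∏ y ∈ S.biUnion (fun q => Y (w q * t)), κ x y :=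
          Finset.prod_le_prod_of_subset_of_le_one hsub (fun y _ => (hκ x y).1)
            (fun y _ _ => (hκ x y).2)
      _ = ∏ q ∈ S, ∏ y ∈ Y (w q * t), κ x y := Finset.prod_biUnion hdisj
      _ ≤ ∏ q ∈ S, c := by
          apply Finset.prod_le_prod
          · intro q _
            exact Finset.prod_nonneg (fun y _ => (hκ x y).1)
          · intro q hq
            exact hY3 t ht _ (hwW q) (hone q (Finset.ne_of_mem_erase hq)) x hxt
      _ = c ^ (Fintype.card (W ⧸ B.subgroupOf W) - 1) := by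
          rw [Finset.prod_const, hS, Finset.card_erase_of_mem (Finset.mem_univ _),
            Finset.card_univ]
  have hpos : 1 ≤ Fintype.card (W ⧸ B.subgroupOf W) := Fintype.card_pos
  calc ∏ x ∈ X, ∏ y ∈ X.erase x, κ x y
      ≤ ∏ x ∈ X, c ^ (Fintype.card (W ⧸ B.subgroupOf W) - 1) := by
        apply Finset.prod_le_prod
        · intro x _
          exact Finset.prod_nonneg (fun y _ => (hκ x y).1)
        · exact key
    _ = c ^ ((X.card : ℝ) * ((B.relIndex W : ℝ) - 1)) := by
        rw [Finset.prod_const, ← pow_mul, ← Real.rpow_natCast, hcard]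
        congr 1
        push_cast [Nat.cast_sub hpos]
        ring

end Pool.Agent.H86.RQ
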