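import Pool.Agent.H29.RQ.Targets

set_option autoImplicit false

namespace Pool.Agent.H86.RQ

open Pool.Agent.H29.RQ Pool.Agent.H23.RDD Pool.Agent.H24.RD NumberField Height Finset Polynomial

lemma powq_dch_nonneg {M : Type} [Field M] (v : AbsoluteValue M ℝ) (x y : M) :
    0 ≤ dch v x y :=
  div_nonneg (v.nonneg _) (mul_nonneg (le_max_of_le_right zero_le_one)
    (le_max_of_le_right zero_le_one))

lemma powq_map_sub_le {M : Type} [Field M] {v : AbsoluteValue M ℝ} (hv : IsNonarchimedean v)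
    (x y : M) : v (x - y) ≤ max (v x) (v y) := by
  have h := hv x (-y)
  rwa [v.map_neg, ← sub_eq_add_neg] at h

lemma powq_dch_le_one {M : Type} [Field M] {v : AbsoluteValue M ℝ} (hv : IsNonarchimedean v)
    (x y : M) : dch v x y ≤ 1 := by
  have h1 : (1 : ℝ) ≤ max (v x) 1 := le_max_right _ _
  have h2 : (1 : ℝ) ≤ max (v y) 1 := le_max_right _ _
  rw [dch, div_le_one (by positivity)]
  refine (powq_map_sub_le hv x y).trans (max_le ?_ ?_)
  · calc v x ≤ max (v x) 1 * 1 := by rw [mul_one]; exact le_max_left _ _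
      _ ≤ _ := mul_le_mul_of_nonneg_left h2 (by positivity)
  · calc v y ≤ 1 * max (v y) 1 := by rw [one_mul]; exact le_max_left _ _
      _ ≤ _ := mul_le_mul_of_nonneg_right h1 (by positivity)

lemma powq_sum_le {M : Type} [Field M] {v : AbsoluteValue M ℝ} (hv : IsNonarchimedean v)
    {ι : Type} (s : Finset ι) (f : ι → M) (c : ℝ) (hc : 0 ≤ c) (h : ∀ i ∈ s, v (f i) ≤ c) :
    v (∑ i ∈ s, f i) ≤ c := by
  classical
  induction s using Finset.induction_on with
  | empty => simpa using hc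
  | insert a s ha ih =>
    rw [Finset.sum_insert ha]
    exact (hv _ _).trans (max_le (h a (Finset.mem_insert_self a s))
      (ih (fun i hi => h i (Finset.mem_insert_of_mem hi))))

/-- The case of integral arguments. -/
lemma powq_int {M : Type} [Field M] {v : AbsoluteValue M ℝ} (hv : IsNonarchimedean v)
    {p : ℕ} (hp : p.Prime) (x y : M) (hx : v x ≤ 1) (hy : v y ≤ 1) :
    v (x ^ p - y ^ p) ≤ max (v (x - y) ^ p) (v (p : M) * v (x - y)) := by
  have hd : v (x - y) ≤ 1 := (powq_map_sub_le hv x y).trans (max_le hx hy)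
  have h := add_pow_prime_eq hp (x - y) y
  rw [sub_add_cancel] at h
  set S : M := ∑ k ∈ Ioo 0 p, (x - y) ^ (k - 1) * y ^ (p - k - 1) * ↑(p.choose k / p) with hS
  have hS1 : v S ≤ 1 := by
    apply powq_sum_le hv _ _ _ zero_le_one
    intro k _
    rw [v.map_mul, v.map_mul, v.map_pow, v.map_pow]
    have h1 : v (x - y) ^ (k - 1) ≤ 1 := pow_le_one₀ (v.nonneg _) hd
    have h2 : v y ^ (p - k - 1) ≤ 1 := pow_le_one₀ (v.nonneg _) hy
    have h3 : v ((p.choose k / p : ℕ) : M) ≤ 1 := hv.apply_natCast_le_one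
    have h4 : v (x - y) ^ (k - 1) * v y ^ (p - k - 1) ≤ 1 :=
      mul_le_one₀ h1 (pow_nonneg (v.nonneg _) _) h2
    exact mul_le_one₀ h4 (v.nonneg _) h3
  have h5 : x ^ p - y ^ p = (x - y) ^ p + p * (x - y) * y * S := by
    rw [h]; ring
  rw [h5]
  refine (hv _ _).trans (max_le_max ?_ ?_)
  · rw [v.map_pow]
  · rw [v.map_mul, v.map_mul, v.map_mul]
    have h6 : v y * v S ≤ 1 := mul_le_one₀ hy (v.nonneg _) hS1
    have h7 : 0 ≤ v (p : M) * v (x - y) := mul_nonneg (v.nonneg _) (v.nonneg _)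
    calc v (p : M) * v (x - y) * v y * v S = v (p : M) * v (x - y) * (v y * v S) := by ring
      _ ≤ v (p : M) * v (x - y) * 1 := mul_le_mul_of_nonneg_left h6 h7
      _ = _ := mul_one _

lemma powq_dch_int {M : Type} [Field M] {v : AbsoluteValue M ℝ} (x y : M)
    (hx : v x ≤ 1) (hy : v y ≤ 1) : dch v x y = v (x - y) := by
  rw [dch, max_eq_right hx, max_eq_right hy]
  simp

lemma powq_dch_big {M : Type} [Field M] {v : AbsoluteValue M ℝ} (x y : M)
    (hx : 1 < v x) (hy : 1 < v y) : dch v x y = v (x⁻¹ - y⁻¹) := by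
  have hx0 : x ≠ 0 := by
    rintro rfl
    rw [v.map_zero] at hx
    linarith
  have hy0 : y ≠ 0 := by
    rintro rfl
    rw [v.map_zero] at hy
    linarith
  have h1 : x⁻¹ - y⁻¹ = (y - x) / (x * y) := by
    field_simp
  rw [dch, max_eq_left hx.le, max_eq_left hy.le, h1, map_div₀, v.map_mul, v.map_sub]

lemma powq_dch_mixed {M : Type} [Field M] {v : AbsoluteValue M ℝ} (hv : IsNonarchimedean v)
    (x y : M) (hx : v x ≤ 1) (hy : 1 < v y) : dch v x y = 1 := by
  have h1 : v (x - y) = v y := by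
    apply le_antisymm
    · exact (powq_map_sub_le hv x y).trans (max_le (hx.trans hy.le) le_rfl)
    · by_contra hlt
      push Not at hlt
      have h2 : v y ≤ max (v x) (v (x - y)) := by
        have h3 := powq_map_sub_le hv x (x - y)
        rwa [sub_sub_cancel] at h3
      rcases le_max_iff.1 h2 with h3 | h3 <;> linarith
  rw [dch, max_eq_right hx, max_eq_left hy.le, h1, one_mul, div_self (by linarith)]

lemma powq_dch_comm {M : Type} [Field M] (v : AbsoluteValue M ℝ) (x y : M) :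
    dch v x y = dch v y x := by
  rw [dch, dch, v.map_sub, mul_comm]

/-- One step. -/
lemma powq_step {M : Type} [Field M] {v : AbsoluteValue M ℝ} (hv : IsNonarchimedean v)
    {p : ℕ} (hp : p.Prime) (x y : M) :
    dch v (x ^ p) (y ^ p) ≤ max (dch v x y ^ p) (v (p : M) * dch v x y) := by
  have hmix : ∀ a b : M, v a ≤ 1 → 1 < v b →
      dch v (a ^ p) (b ^ p) ≤ max (dch v a b ^ p) (v (p : M) * dch v a b) := by
    intro a b ha hb
    rw [powq_dch_mixed hv a b ha hb, one_pow]
    exact (powq_dch_le_one hv _ _).trans (le_max_left _ _)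
  rcases le_or_gt (v x) 1 with hx | hx <;> rcases le_or_gt (v y) 1 with hy | hy
  · rw [powq_dch_int x y hx hy, powq_dch_int]
    · exact powq_int hv hp x y hx hy
    · rw [v.map_pow]; exact pow_le_one₀ (v.nonneg _) hx
    · rw [v.map_pow]; exact pow_le_one₀ (v.nonneg _) hy
  · exact hmix x y hx hy
  · rw [powq_dch_comm v (x ^ p), powq_dch_comm v x]
    exact hmix y x hy hx
  · rw [powq_dch_big x y hx hy, powq_dch_big]
    · have h := powq_int hv hp x⁻¹ y⁻¹ (by rw [map_inv₀]; exact inv_le_one_of_one_le₀ hx.le)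
        (by rw [map_inv₀]; exact inv_le_one_of_one_le₀ hy.le)
      rwa [inv_pow, inv_pow] at h
    · rw [v.map_pow]; exact one_lt_pow₀ hx hp.ne_zero
    · rw [v.map_pow]; exact one_lt_pow₀ hy hp.ne_zero

theorem pf_POWQ : T_POWQ := by
  classical
  intro M _ _ v hv p hp hvp δ k e hδ hkδ x s hprod
  set θ : ℝ := v (p : M) with hθ
  have hθ0 : 0 < θ := v.pos (by exact_mod_cast hp.ne_zero)
  have hp2 : 2 ≤ p := hp.two_le
  -- the first `k` steps
  have hA : ∀ (y : M) (n : ℕ), dch v (x ^ (p ^ n)) (y ^ (p ^ n)) ≤ max (dch v x y ^ (p ^ n)) θ := by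
    intro y n
    induction n with
    | zero => simp
    | succ n ih =>
      have h1 := powq_step hv hp (x ^ (p ^ n)) (y ^ (p ^ n))
      rw [← pow_mul, ← pow_mul, ← pow_succ] at h1
      refine h1.trans (max_le ?_ ?_)
      · have h2 : dch v (x ^ (p ^ n)) (y ^ (p ^ n)) ^ p ≤ (max (dch v x y ^ (p ^ n)) θ) ^ p :=
          pow_le_pow_left₀ (powq_dch_nonneg v _ _) ih p
        refine h2.trans ?_
        rcases le_total (dch v x y ^ (p ^ n)) θ with h3 | h3
        · rw [max_eq_right h3]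
          refine le_trans ?_ (le_max_right _ _)
          calc θ ^ p ≤ θ ^ 1 := pow_le_pow_of_le_one hθ0.le hvp.le (by omega)
            _ = θ := pow_one _
        · rw [max_eq_left h3, ← pow_mul, ← pow_succ]
          exact le_max_left _ _
      · refine le_trans ?_ (le_max_right _ _)
        calc θ * dch v (x ^ (p ^ n)) (y ^ (p ^ n)) ≤ θ * 1 :=
              mul_le_mul_of_nonneg_left (powq_dch_le_one hv _ _) hθ0.le
          _ = θ := mul_one _
  set E : M → ℝ := fun y => max (dch v x y ^ (p ^ k)) θ with hE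
  have hE0 : ∀ y, θ ≤ E y := fun y => le_max_right _ _
  have hE1 : ∀ y, E y ≤ 1 := fun y =>
    max_le (pow_le_one₀ (powq_dch_nonneg v _ _) (powq_dch_le_one hv _ _)) hvp.le
  have hEp : ∀ y, 0 < E y := fun y => lt_of_lt_of_le hθ0 (hE0 y)
  -- the other steps
  have hB : ∀ (y : M) (n : ℕ), dch v (x ^ (p ^ (k + n))) (y ^ (p ^ (k + n))) ≤ E y ^ (n + 1) := by
    intro y n
    induction n with
    | zero =>
      rw [Nat.add_zero, Nat.zero_add, pow_one]
      exact hA y k
    | succ n ih =>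
      have h1 := powq_step hv hp (x ^ (p ^ (k + n))) (y ^ (p ^ (k + n)))
      rw [← pow_mul, ← pow_mul, ← pow_succ] at h1
      refine h1.trans (max_le ?_ ?_)
      · have h2 : dch v (x ^ (p ^ (k + n))) (y ^ (p ^ (k + n))) ^ p ≤ (E y ^ (n + 1)) ^ p :=
          pow_le_pow_left₀ (powq_dch_nonneg v _ _) ih p
        refine h2.trans ?_
        rw [← pow_mul]
        apply pow_le_pow_of_le_one (hEp y).le (hE1 y)
        nlinarith
      · calc θ * dch v (x ^ (p ^ (k + n))) (y ^ (p ^ (k + n))) ≤ E y * E y ^ (n + 1) :=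
              mul_le_mul (hE0 y) ih (powq_dch_nonneg v _ _) (hEp y).le
          _ = E y ^ (n + 1 + 1) := by ring
  -- the product
  have hC : ∏ y ∈ s, E y ≤ θ := by
    by_cases hex : ∃ y ∈ s, dch v x y ^ (p ^ k) ≤ θ
    · obtain ⟨y, hy, hyθ⟩ := hex
      have h1 : E y = θ := max_eq_right hyθ
      rw [← Finset.mul_prod_erase s _ hy, h1]
      calc θ * ∏ z ∈ s.erase y, E z ≤ θ * 1 := by
            apply mul_le_mul_of_nonneg_left _ hθ0.le
            exact Finset.prod_le_one (fun z _ => (hEp z).le) (fun z _ => hE1 z)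
        _ = θ := mul_one _
    · push Not at hex
      have h1 : ∏ y ∈ s, E y = (∏ y ∈ s, dch v x y) ^ (p ^ k) := by
        rw [← Finset.prod_pow]
        apply Finset.prod_congr rfl
        intro y hy
        exact max_eq_left (hex y hy).le
      rw [h1]
      calc (∏ y ∈ s, dch v x y) ^ (p ^ k) ≤ (θ ^ δ) ^ (p ^ k) :=
            pow_le_pow_left₀ (Finset.prod_nonneg (fun y _ => powq_dch_nonneg v _ _)) hprod _
        _ = θ ^ (δ * ((p ^ k : ℕ) : ℝ)) := by
            rw [Real.rpow_mul hθ0.le, Real.rpow_natCast]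
        _ ≤ θ ^ (1 : ℝ) := by
            apply Real.rpow_le_rpow_of_exponent_ge hθ0 hvp.le
            push_cast
            linarith
        _ = θ := Real.rpow_one θ
  calc ∏ y ∈ s, dch v (x ^ (p ^ (k + e))) (y ^ (p ^ (k + e)))
      ≤ ∏ y ∈ s, E y ^ (e + 1) :=
        Finset.prod_le_prod (fun y _ => powq_dch_nonneg v _ _) (fun y _ => hB y e)
    _ = (∏ y ∈ s, E y) ^ (e + 1) := Finset.prod_pow _ _ _
    _ ≤ θ ^ (e + 1) := pow_le_pow_left₀ (Finset.prod_nonneg (fun y _ => (hEp y).le)) hC _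

end Pool.Agent.H86.RQ
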