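import Pool.Agent.H95.RQ.Targets2

/-!
# Artin reciprocity: (HSU), the Herbrand quotient of the `T`-units
-/

set_option autoImplicit false

open NumberField NumberField.InfinitePlace IsDedekindDomain

namespace Pool.Agent.H86.RQ.HSU

open Pool.Agent.H95.RQ Pool.Agent.H28.RC

section aux

variable {F E : Type} [Field F] [NumberField F] [Field E] [NumberField E] [Algebra F E]

open scoped Classical in
theorem card_above [IsGalois F E] (v : InfinitePlace F) :
    Module.finrank F E / Nat.card {w : InfinitePlace E // w.comap (algebraMap F E) = v} =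
      (if v.IsUnramifiedIn E then 1 else 2) := by
  obtain ⟨w, rfl⟩ := comap_surjective (k := F) (K := E) v
  have h1 : Nat.card {w' : InfinitePlace E //
      w'.comap (algebraMap F E) = w.comap (algebraMap F E)} =
      Nat.card (MulAction.orbit (E ≃ₐ[F] E) w) := by
    apply Nat.card_congr
    exact Equiv.subtypeEquivRight (fun w' =>
      ⟨fun h => mem_orbit_iff.2 h.symm, fun h => (mem_orbit_iff.1 h).symm⟩)
  have h2 : Nat.card (MulAction.orbit (E ≃ₐ[F] E) w) *
      Nat.card (MulAction.stabilizer (E ≃ₐ[F] E) w) = Module.finrank F E := by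
    rw [Nat.card_congr (MulAction.orbitEquivQuotientStabilizer (E ≃ₐ[F] E) w),
      ← Subgroup.card_eq_card_quotient_mul_card_subgroup, IsGalois.card_aut_eq_finrank]
  have h3 : Nat.card (MulAction.stabilizer (E ≃ₐ[F] E) w) =
      if IsUnramified F w then 1 else 2 := card_stabilizer
  have h4 : 0 < Module.finrank F E := Module.finrank_pos
  have h5 : 0 < Nat.card (MulAction.orbit (E ≃ₐ[F] E) w) := by
    rcases Nat.eq_zero_or_pos (Nat.card (MulAction.orbit (E ≃ₐ[F] E) w)) with h | h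
    · rw [h, zero_mul] at h2; omega
    · exact h
  change Module.finrank F E / Nat.card {w' : InfinitePlace E //
      w'.comap (algebraMap F E) = w.comap (algebraMap F E)} = _
  rw [h1, ← h2, Nat.mul_div_cancel_left _ h5, h3]
  have h6 : (w.comap (algebraMap F E)).IsUnramifiedIn E ↔ IsUnramified F w :=
    isUnramifiedIn_comap
  by_cases h : IsUnramified F w
  · rw [if_pos h, if_pos (h6.2 h)]
  · rw [if_neg h, if_neg (fun h' => h (h6.1 h'))]

open scoped Classical in
theorem prod_inf [IsGalois F E] :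
    ∏ v : InfinitePlace F, Module.finrank F E /
      Nat.card {w : InfinitePlace E // w.comap (algebraMap F E) = v} = 2 ^ rI F E := by
  have h : ∀ v : InfinitePlace F, Module.finrank F E /
      Nat.card {w : InfinitePlace E // w.comap (algebraMap F E) = v} =
        (if ¬ v.IsUnramifiedIn E then 2 else 1) := by
    intro v
    rw [card_above]
    by_cases h : v.IsUnramifiedIn E
    · simp [h]
    · simp [h]
  rw [Finset.prod_congr rfl (fun v _ => h v), Finset.prod_ite]
  simp only [Finset.prod_const, one_pow, mul_one]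
  congr 1
  rw [rI, Nat.card_eq_fintype_card, Fintype.card_subtype]

theorem exists_pow {σ : E ≃ₐ[F] E} (hσ : ∀ g : E ≃ₐ[F] E, g ∈ Subgroup.zpowers σ)
    (g : E ≃ₐ[F] E) : ∃ i : ℕ, σ ^ i = g := by
  have h := hσ g
  rw [← mem_powers_iff_mem_zpowers] at h
  exact h

end aux

theorem pf_HSU (h_NMN : T_NMN) (h_VAL : T_VAL) (h_HQI : T_HQI) (h_HQM : T_HQM) (h_HQP : T_HQP)
    (h_HQX : T_HQX) (h_SUN : T_SUN) : T_HSU := by
  classical
  intro F E _ _ _ _ _ _ σ T hσ
  set n := Module.finrank F E with hn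
  have hn1 : 1 ≤ n := Module.finrank_pos
  obtain ⟨hN1, hN2, -, -⟩ := h_NMN F E σ hσ
  obtain ⟨hV1, hV2, hV3, hV4, hV5, hV6, -⟩ := h_VAL F E
  obtain ⟨π, Φ, hπ1, hπ2, hΦi, hΦe, hΦr, hΦx⟩ := h_SUN F E σ n T hn1 hN1
  -- the index sets
  have hfin : Finite {Q : HeightOneSpectrum (𝓞 E) // AbT E T Q} := by
    have : ∀ P : {P // P ∈ T}, Finite (Ab F E P.1) := fun P => (hV6 P.1).2.1
    apply Finite.of_injective (β := Σ P : {P // P ∈ T}, Ab F E P.1)
      (fun Q => ⟨⟨Q.2.choose, Q.2.choose_spec.1⟩, ⟨Q.1, Q.2.choose_spec.2⟩⟩)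
    intro Q Q' h
    have h2 : ∀ (a b : Σ P : {P // P ∈ T}, Ab F E P.1), a = b → a.2.1 = b.2.1 := by
      rintro a b rfl; rfl
    exact Subtype.ext (h2 _ _ h)
  let X : Type := InfinitePlace E ⊕ {Q : HeightOneSpectrum (𝓞 E) // AbT E T Q}
  let Y : Type := InfinitePlace F ⊕ {P // P ∈ T}
  let bl : {Q : HeightOneSpectrum (𝓞 E) // AbT E T Q} → {P // P ∈ T} :=
    fun Q => ⟨Q.2.choose, Q.2.choose_spec.1⟩
  have hbl : ∀ Q, Q.1.asIdeal.under (𝓞 F) = (bl Q).1.asIdeal := fun Q => Q.2.choose_spec.2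
  have hbl2 : ∀ (Q : {Q : HeightOneSpectrum (𝓞 E) // AbT E T Q}) (P : {P // P ∈ T}),
      bl Q = P ↔ Q.1.asIdeal.under (𝓞 F) = P.1.asIdeal := by
    intro Q P
    constructor
    · rintro rfl; exact hbl Q
    · intro h
      rw [hbl] at h
      exact Subtype.ext (HeightOneSpectrum.ext h)
  let p : X → Y := Sum.map (fun w => w.comap (algebraMap F E)) bl
  have hπi1 : ∀ (i : ℕ) (w : InfinitePlace E), (π ^ i) (Sum.inl w) = Sum.inl (σ ^ i • w) := by
    intro i w
    induction i with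
    | zero => simp
    | succ i ih =>
      rw [pow_succ', Equiv.Perm.mul_apply, ih, hπ1, pow_succ', mul_smul]
  have hπi2 : ∀ (i : ℕ) (Q : {Q : HeightOneSpectrum (𝓞 E) // AbT E T Q}),
      ∃ h, (π ^ i) (Sum.inr Q) = Sum.inr ⟨mp (σ ^ i) Q.1, h⟩ := by
    intro i Q
    induction i with
    | zero =>
      have h0 : mp (σ ^ 0) Q.1 = Q.1 := by rw [hV3]; rfl
      refine ⟨by rw [h0]; exact Q.2, ?_⟩
      rw [pow_zero]
      exact congrArg Sum.inr (Subtype.ext h0.symm)
    | succ i ih =>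
      obtain ⟨h, hi⟩ := ih
      obtain ⟨h', hi'⟩ := hπ2 ⟨mp (σ ^ i) Q.1, h⟩
      have h0 : mp (σ ^ (i + 1)) Q.1 = mp σ (mp (σ ^ i) Q.1) := by
        rw [hV3, hV3, pow_succ']; rfl
      refine ⟨by rw [h0]; exact h', ?_⟩
      rw [pow_succ', Equiv.Perm.mul_apply, hi, hi']
      congr 1
      exact Subtype.ext h0.symm
  have hπn : π ^ n = 1 := by
    apply Equiv.ext
    rintro (w | Q)
    · rw [hπi1, hN1, one_smul]; rfl
    · obtain ⟨h, hi⟩ := hπi2 n Q
      rw [hi]
      change _ = Sum.inr Q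
      congr 1
      apply Subtype.ext
      change mp (σ ^ n) Q.1 = Q.1
      rw [hN1, ← pow_zero σ, hV3]; rfl
  have hps : Function.Surjective p := by
    rintro (v | P)
    · obtain ⟨w, hw⟩ := comap_surjective (k := F) (K := E) v
      exact ⟨Sum.inl w, congrArg Sum.inl hw⟩
    · obtain ⟨Q⟩ := (hV6 P.1).1
      refine ⟨Sum.inr ⟨Q.1, P.1, P.2, Q.2⟩, ?_⟩
      exact congrArg Sum.inr ((hbl2 _ _).2 Q.2)
  have hpf : ∀ x x' : X, p x = p x' ↔ ∃ i : ℕ, (π ^ i) x = x' := by
    rintro (w | Q) (w' | Q')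
    · constructor
      · intro h
        have h' : w.comap (algebraMap F E) = w'.comap (algebraMap F E) := Sum.inl_injective h
        obtain ⟨g, hg⟩ := exists_smul_eq_of_comap_eq h'
        obtain ⟨i, hi⟩ := exists_pow hσ g
        exact ⟨i, by rw [hπi1, hi, hg]⟩
      · rintro ⟨i, hi⟩
        rw [hπi1] at hi
        have hi' := Sum.inl_injective hi
        have : w.comap (algebraMap F E) = w'.comap (algebraMap F E) :=
          mem_orbit_iff.1 ⟨σ ^ i, hi'⟩
        exact congrArg Sum.inl this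
    · constructor
      · intro h
        exact absurd h (by simp [p])
      · rintro ⟨i, hi⟩
        rw [hπi1] at hi
        exact absurd hi (by simp)
    · constructor
      · intro h
        exact absurd h (by simp [p])
      · rintro ⟨i, hi⟩
        obtain ⟨h, hi2⟩ := hπi2 i Q
        rw [hi2] at hi
        exact absurd hi (by simp)
    · constructor
      · intro h
        have h' : bl Q = bl Q' := Sum.inr_injective h
        rw [hbl2, ← hbl Q'] at h'
        obtain ⟨g, hg⟩ := hV4 _ _ h'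
        obtain ⟨i, hi⟩ := exists_pow hσ g
        obtain ⟨h3, hi2⟩ := hπi2 i Q
        refine ⟨i, ?_⟩
        rw [hi2]
        congr 1
        apply Subtype.ext
        change mp (σ ^ i) Q.1 = Q'.1
        rw [hi, hg]
      · rintro ⟨i, hi⟩
        obtain ⟨h, hi2⟩ := hπi2 i Q
        rw [hi2] at hi
        have hi' := congrArg Subtype.val (Sum.inr_injective hi)
        change mp (σ ^ i) Q.1 = Q'.1 at hi'
        have : bl Q = bl Q' := by
          rw [hbl2, ← hbl Q', ← hi', hV2]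
        exact congrArg Sum.inr this
  obtain ⟨hX0, hX1⟩ := h_HQX X Y π p n hn1 hπn hps hpf
  -- the product
  have hfib1 : ∀ v : InfinitePlace F, Nat.card {x : X // p x = Sum.inl v} =
      Nat.card {w : InfinitePlace E // w.comap (algebraMap F E) = v} := by
    intro v
    apply Nat.card_congr
    symm
    refine Equiv.ofBijective (fun w => ⟨Sum.inl w.1, congrArg Sum.inl w.2⟩) ⟨?_, ?_⟩
    · intro a b hab
      exact Subtype.ext (Sum.inl_injective (congrArg Subtype.val hab))
    · rintro ⟨w | Q, hx⟩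
      · exact ⟨⟨w, Sum.inl_injective hx⟩, rfl⟩
      · exact absurd hx (by simp [p])
  have hfib2 : ∀ P : {P // P ∈ T}, Nat.card {x : X // p x = Sum.inr P} =
      Nat.card (Ab F E P.1) := by
    intro P
    apply Nat.card_congr
    symm
    refine Equiv.ofBijective (fun Q => ⟨Sum.inr ⟨Q.1, P.1, P.2, Q.2⟩,
      congrArg Sum.inr ((hbl2 _ _).2 Q.2)⟩) ⟨?_, ?_⟩
    · intro a b hab
      have h1 := Sum.inr_injective (congrArg Subtype.val hab)
      have h2 : a.1 = b.1 := congrArg
        (fun q : {Q : HeightOneSpectrum (𝓞 E) // AbT E T Q} => q.1) h1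
      exact Subtype.ext h2
    · rintro ⟨w | Q, hx⟩
      · exact absurd hx (by simp [p])
      · exact ⟨⟨Q.1, (hbl2 _ _).1 (Sum.inr_injective hx)⟩, rfl⟩
  have hprod : ∏ y : Y, n / Nat.card {x : X // p x = y} = 2 ^ rI F E * ∏ P ∈ T, nP F E P := by
    have h1 : ∏ y : Y, n / Nat.card {x : X // p x = y} =
        (∏ v : InfinitePlace F, n / Nat.card {x : X // p x = Sum.inl v}) *
          ∏ P : {P // P ∈ T}, n / Nat.card {x : X // p x = Sum.inr P} :=
      Fintype.prod_sum_type _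
    rw [h1]
    congr 1
    · rw [← prod_inf (F := F) (E := E)]
      exact Finset.prod_congr rfl (fun v _ => by rw [hfib1])
    · rw [← Finset.prod_coe_sort T (fun P => nP F E P)]
      exact Finset.prod_congr rfl (fun P _ => by rw [hfib2]; rfl)
  rw [hprod] at hX0
  have hne : (2 ^ rI F E * ∏ P ∈ T, nP F E P) ≠ 0 := by
    apply mul_ne_zero (pow_ne_zero _ two_ne_zero)
    rw [Finset.prod_ne_zero_iff]
    intro P _
    obtain ⟨hne, hf, hd⟩ := hV6 P
    rw [nP]
    have h1 : 0 < Module.finrank F E / Nat.card (Ab F E P) :=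
      Nat.div_pos (Nat.le_of_dvd (by omega) hd) Nat.card_pos
    omega
  -- transfer
  obtain ⟨hM0, hM1⟩ := h_HQM (X → Multiplicative ℤ) (Eˣ × Multiplicative ℤ) (pm π)
    ((us σ).prodMap (MonoidHom.id _)) n Φ ⊤ hΦi hΦe
  rw [hX0] at hM0
  rw [hX1] at hM1
  rw [← MonoidHom.range_eq_map] at hM0 hM1
  have hiter : ∀ (k : ℕ) (a : Eˣ × Multiplicative ℤ),
      ((us σ).prodMap (MonoidHom.id (Multiplicative ℤ)))^[k] a = ((us σ)^[k] a.1, a.2) := by
    intro k a
    induction k with
    | zero => rfl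
    | succ k ih =>
      rw [Function.iterate_succ_apply', ih, Function.iterate_succ_apply']
      rfl
  have hstab : ∀ c ∈ UE E T, us σ c ∈ UE E T := by
    intro c hc Q hQ
    obtain ⟨Q'', rfl⟩ := (mp σ).surjective Q
    change (mp σ Q'').valuation E (σ (c : E)) = 1
    rw [hV1]
    apply hc
    rintro ⟨P, hP, h⟩
    exact hQ ⟨P, hP, by rw [hV2]; exact h⟩
  obtain ⟨hI0, hI1, hI2⟩ := h_HQI (Eˣ × Multiplicative ℤ) ((us σ).prodMap (MonoidHom.id _)) n
    Φ.range ((UE E T).prod ⊤) hn1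
    (by
      intro a
      rw [hiter, hN2])
    (by
      rintro _ ⟨a, rfl⟩
      exact ⟨pm π a, hΦe a⟩)
    (by
      rintro ⟨c, d⟩ hc
      rw [Subgroup.mem_prod] at hc ⊢
      exact ⟨hstab c hc.1, hc.2⟩)
    hΦr hΦx (by rw [hM0]; exact hne) (by rw [hM1]; exact one_ne_zero)
  rw [hM0, hM1, mul_one] at hI2
  obtain ⟨hP1, hP2⟩ := h_HQP
  obtain ⟨hZ0, hZ1⟩ := hP2 n hn1
  obtain ⟨hP0, hP1⟩ := hP1 Eˣ (Multiplicative ℤ) (us σ) (MonoidHom.id _) n (UE E T) ⊤
  rw [hZ0] at hP0
  rw [hZ1, mul_one] at hP1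
  rw [hP0] at hI0 hI2
  rw [hP1] at hI1 hI2
  exact ⟨fun h => hI0 (by rw [h, zero_mul]), hI1, hI2⟩

end Pool.Agent.H86.RQ.HSU
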